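import Pool.Agent.N152.VP.CELO
import Pool.Agent.N805.VP.Stm3

/-! # From unions of cells to products of cells, an odd number of points, sets of small total length
(adaptation of `N152/VP/CELO.lean`) -/

set_option autoImplicit false

open MeasureTheory Set Filter Topology

namespace Pool.Agent.N645.VP

open Pool.Agent.N805.VP Pool.Agent.N152.VP

theorem CELO2 : Pool.Agent.N805.VP.S_CELO2 := by
  classical
  intro hD hSPL hSYM hHOL l J x X hX c hc m hm hM hE hU b η hη
  obtain ⟨n, rfl⟩ : ∃ n, m = n + 1 := ⟨m - 1, by omega⟩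
  rw [Nat.add_sub_cancel] at hE
  obtain ⟨C, hC0, hC⟩ := mom_coin hD hHOL l J x X hX n (by omega) hM hE b
  obtain ⟨N, hN⟩ : ∃ N : ℝ, N = ((n + 1 : ℕ) : ℝ) ^ (n + 1) := ⟨_, rfl⟩
  have hN0 : 1 ≤ N := by
    rw [hN]
    exact one_le_pow₀ (by push_cast; linarith [(Nat.cast_nonneg n : (0 : ℝ) ≤ n)])
  refine ⟨max 1 (max ⌈((n + 1 : ℕ) : ℝ) / c⌉₊ ⌈((4 + N * C) / η) ^ 2⌉₊), le_max_left _ _,
    fun r hr' f hf ε hε => ?_⟩
  have hr : 1 ≤ r := (le_max_left _ _).trans hr'
  have hra : ⌈((n + 1 : ℕ) : ℝ) / c⌉₊ ≤ r := ((le_max_left _ _).trans (le_max_right _ _)).trans hr'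
  have hrb : ⌈((4 + N * C) / η) ^ 2⌉₊ ≤ r := ((le_max_right _ _).trans (le_max_right _ _)).trans hr'
  have hr0 : (0 : ℝ) < r := by exact_mod_cast hr
  have hr1 : (1 : ℝ) ≤ r := by exact_mod_cast hr
  have hra' : ((n + 1 : ℕ) : ℝ) / r ≤ c := by
    have h1 := Nat.ceil_le.1 hra
    rw [div_le_iff₀ hc] at h1
    rw [div_le_iff₀ hr0]
    linarith
  have hrb' : (4 + N * C) / Real.sqrt r ≤ η := by
    have h1 := Nat.ceil_le.1 hrb
    have h2 : (4 + N * C) / η ≤ Real.sqrt r := Real.le_sqrt_of_sq_le h1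
    rw [div_le_iff₀ hη] at h2
    rw [div_le_iff₀ (Real.sqrt_pos.2 hr0)]
    linarith
  have hfin : (4 + N * C) / (r : ℝ) ^ (n + 1) / Real.sqrt r ≤ η / (r : ℝ) ^ (n + 1) := by
    rw [div_right_comm]
    exact div_le_div_of_nonneg_right hrb' (by positivity)
  have hs0 : 0 < Real.sqrt r := Real.sqrt_pos.2 hr0
  have hh : 0 < 1 / (r : ℝ) := by positivity
  have hq : 0 ≤ 1 / (r : ℝ) ^ (n + 1) / Real.sqrt r := by positivity
  by_cases hinj : Function.Injective f
  swap
  · filter_upwards [hX] with T hT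
    obtain ⟨i1, i2, h12, hne⟩ : ∃ i1 i2, f i1 = f i2 ∧ i1 ≠ i2 := by
      unfold Function.Injective at hinj
      push Not at hinj
      exact hinj
    have h1 := G_coin hD hh f hne h12
    have h2 : 0 ≤ mom (J T) (x T) (fun i => cell (1 / (r : ℝ)) (f i)) / X T :=
      div_nonneg (mom_nonneg _) hT.le
    have h3 : (1 / (r : ℝ)) ^ (n + 1 + 2) ≤ 1 / (r : ℝ) ^ (n + 1) / Real.sqrt r := by
      rw [one_div_pow, pow_add, ← div_div]
      refine div_le_div_of_nonneg_left (by positivity) hs0 ?_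
      rw [Real.sqrt_le_left (by positivity)]
      nlinarith [pow_le_pow_right₀ hr1 (show 1 ≤ 4 by norm_num), sq_nonneg ((r : ℝ) ^ 2)]
    have h4 : (4 + N * C) / (r : ℝ) ^ (n + 1) / Real.sqrt r =
        (4 + N * C) * (1 / (r : ℝ) ^ (n + 1) / Real.sqrt r) := by ring
    refine le_trans ?_ (add_le_add_left hfin ε)
    rw [h4]
    have h5 : 0 ≤ N * C * (1 / (r : ℝ) ^ (n + 1) / Real.sqrt r) := by positivity
    nlinarith
  · obtain ⟨A, hA⟩ : ∃ A : Finset ℤ, A = Finset.univ.image f := ⟨_, rfl⟩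
    have hAb : ∀ a ∈ A, |a| ≤ (b : ℤ) * r := by
      intro a ha
      rw [hA, Finset.mem_image] at ha
      obtain ⟨i, _, rfl⟩ := ha
      exact hf i
    obtain ⟨B, hB⟩ : ∃ B : Finset (Fin (n + 1) → ℤ), B = (Fintype.piFinset
        (fun _ : Fin (n + 1) => A)).filter (fun g => ¬ Function.Injective g) := ⟨_, rfl⟩
    have hBc : (B.card : ℝ) ≤ N := by
      have h1 : B.card ≤ (n + 1) ^ (n + 1) := by
        rw [hB]
        refine (Finset.card_filter_le _ _).trans ?_
        rw [Fintype.card_piFinset, Finset.prod_const, Finset.card_univ, Fintype.card_fin]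
        refine Nat.pow_le_pow_left ?_ _
        rw [hA]
        refine Finset.card_image_le.trans ?_
        rw [Finset.card_univ, Fintype.card_fin]
      rw [hN]
      exact_mod_cast h1
    have hev1 : ∀ᶠ T in l, ∀ g ∈ B, mom (J T) (x T) (fun i => cell (1 / (r : ℝ)) (g i)) / X T ≤
        C / (r : ℝ) ^ (n + 1) / Real.sqrt r + ε / (2 * N) := by
      rw [Finset.eventually_all]
      intro g hg
      rw [hB, Finset.mem_filter, Fintype.mem_piFinset] at hg
      exact hC r hr g (fun i => hAb _ (hg.1 i)) hg.2 _ (by positivity)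
    have hAc : (A.card : ℝ) / r ≤ c := by
      refine le_trans (div_le_div_of_nonneg_right ?_ hr0.le) hra'
      have h1 : A.card ≤ n + 1 := by
        rw [hA]
        refine Finset.card_image_le.trans ?_
        rw [Finset.card_univ, Fintype.card_fin]
      exact_mod_cast h1
    have hev2 := hU r hr A hAc (ε / 2) (by positivity)
    filter_upwards [hX, hev1, hev2] with T hT h1 h2
    obtain ⟨F, hF⟩ : ∃ F : (Fin (n + 1) → ℤ) → ℝ, F = fun g =>
      G (fun i => cell (1 / (r : ℝ)) (g i)) -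
        mom (J T) (x T) (fun i => cell (1 / (r : ℝ)) (g i)) / X T := ⟨_, rfl⟩
    have hFs : ∀ (σ : Equiv.Perm (Fin (n + 1))) (g : Fin (n + 1) → ℤ),
        F (fun i => g (σ i)) = F g := by
      intro σ g
      have h3 := hSPL.2 (J T) (x T) (n + 1) σ (fun i => cell (1 / (r : ℝ)) (g i))
      rw [hF]
      show G (fun i => cell (1 / (r : ℝ)) (g (σ i))) -
        mom (J T) (x T) (fun i => cell (1 / (r : ℝ)) (g (σ i))) / X T = _
      rw [h3.1, h3.2]
    have hsym := hSYM (n + 1) F hFs f hinj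
    have hspl := hSPL.1 ℤ (J T) (x T) (cell (1 / (r : ℝ))) A
      (fun a _ => ⟨cell_meas _ _, _, cell_bdd hh (le_refl _)⟩)
      ((cell_disj hh).subset (subset_univ _)) (n + 1)
    have hsum : ∑ g ∈ Fintype.piFinset (fun _ : Fin (n + 1) => A), F g =
        G (fun _ : Fin (n + 1) => U (1 / (r : ℝ)) A) -
        mom (J T) (x T) (fun _ : Fin (n + 1) => U (1 / (r : ℝ)) A) / X T := by
      rw [hF, Finset.sum_sub_distrib, ← Finset.sum_div]
      unfold U
      rw [hspl.1, hspl.2]
    have hs2 : ∑ g ∈ Fintype.piFinset (fun _ : Fin (n + 1) => A), F g =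
        ((n + 1).factorial : ℝ) * F f + ∑ g ∈ B, F g := by
      rw [hB, hA]
      convert hsym using 2
    have hs3 : -∑ g ∈ B, F g ≤ N * (C / (r : ℝ) ^ (n + 1) / Real.sqrt r + ε / (2 * N)) := by
      rw [← Finset.sum_neg_distrib]
      have h4 : ∀ g ∈ B, -F g ≤ C / (r : ℝ) ^ (n + 1) / Real.sqrt r + ε / (2 * N) := by
        intro g hg
        have h5 := h1 g hg
        have h6 : 0 ≤ G (fun i => cell (1 / (r : ℝ)) (g i)) :=
          G_nonneg hD fun i => cell_meas _ _
        rw [hF]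
        show -(G (fun i => cell (1 / (r : ℝ)) (g i)) -
          mom (J T) (x T) (fun i => cell (1 / (r : ℝ)) (g i)) / X T) ≤ _
        linarith
      refine (Finset.sum_le_sum h4).trans ?_
      rw [Finset.sum_const, nsmul_eq_mul]
      exact mul_le_mul_of_nonneg_right hBc (by positivity)
    have h7 : N * (C / (r : ℝ) ^ (n + 1) / Real.sqrt r + ε / (2 * N)) =
        N * C / (r : ℝ) ^ (n + 1) / Real.sqrt r + ε / 2 := by
      have : N ≠ 0 := by positivity
      field_simp
    have h8 : ((n + 1).factorial : ℝ) * F f ≤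
        N * C / (r : ℝ) ^ (n + 1) / Real.sqrt r + ε := by
      linarith
    have h9 : (1 : ℝ) ≤ ((n + 1).factorial : ℝ) := by
      exact_mod_cast Nat.factorial_pos (n + 1)
    have h10 : F f ≤ N * C / (r : ℝ) ^ (n + 1) / Real.sqrt r + ε := by
      rcases le_or_gt (F f) 0 with h | h
      · exact h.trans (by positivity)
      · nlinarith
    have h11 : (4 + N * C) / (r : ℝ) ^ (n + 1) / Real.sqrt r =
        4 * (1 / (r : ℝ) ^ (n + 1) / Real.sqrt r) + N * C / (r : ℝ) ^ (n + 1) / Real.sqrt r := by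
      ring
    have h12 : F f = G (fun i => cell (1 / (r : ℝ)) (f i)) -
        mom (J T) (x T) (fun i => cell (1 / (r : ℝ)) (f i)) / X T := by rw [hF]
    refine le_trans ?_ (add_le_add_left hfin ε)
    rw [h11]
    linarith

end Pool.Agent.N645.VP
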